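import Mathlib
import Pool.Agent.HCG.Stmt

/-!
Hartshorne's conjecture on Chow groups of hypersurfaces and cones: in degree `d` and codimension at
most `i` it is equivalent to its case of cones in a higher codimension, and also to the bound
`dlt (d * k) r` for the number of independent classes of cones on the smooth hypersurfaces of degree
`d * k` and dimension `2 (i + r) + 1`, for one `k ≥ 1`.
-/

namespace Pool.Agent.Results.MP_4be043_ag.ConeGrowth

open Pool.Agent.HCG

theorem result (d i r : ℕ) (hd : 2 ≤ d) :
    List.TFAE [HCle d i, ConesAll d i, ConesCrit d i r, ConesFew d i r] :=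
  final4 d i r hd

end Pool.Agent.Results.MP_4be043_ag.ConeGrowth
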