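import Mathlib
import Pool.Agent.HCN.M1

/-!
Hypersurfaces without mixed terms: after a linear change of coordinates the form `F` of degree `D`
has `m` pairwise disjoint sets `s i` of `D` variables and one more set `U` of variables such that no
monomial contains variables of two different ones of these sets, the restriction to each `s i` is
smooth or at least constant on no line through a certain point `y`, and the restriction to `U` is
geometrically irreducible. Then all Chow groups of codimension `j ≤ m` with rational coefficients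
are generated by linear sections.
-/

namespace Pool.Agent.Results.MP_4be043_ag.NoMixedTerms

open MvPolynomial Pool.Agent.HCH

theorem result {K : Type} [Field K] [CharZero K] {n D m : ℕ} (hD : 2 ≤ D)
    (F : MvPolynomial (Fin (n + 2)) K) (hF : F.IsHomogeneous D)
    (φ : MvPolynomial (Fin (n + 2)) K ≃ₐ[K] MvPolynomial (Fin (n + 2)) K)
    (hφ : ∀ k, (φ (X k)).IsHomogeneous 1)
    (s : Fin m → Fin D → Fin (n + 2)) (U : Finset (Fin (n + 2)))
    (hs : Function.Injective fun p : Fin m × Fin D => s p.1 p.2) (hU : ∀ i a, s i a ∉ U)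
    (hmix : ∀ i j, i ≠ j → ∀ a b, pderiv (s i a) (pderiv (s j b) (φ F)) = 0)
    (hmixU : ∀ i a, ∀ u ∈ U, pderiv (s i a) (pderiv u (φ F)) = 0)
    (hgood : ∀ i : Fin m,
      (∀ x : Fin (n + 2) → AlgebraicClosure K, (∀ k, (∀ a, k ≠ s i a) → x k = 0) →
        (∀ a, aeval x (pderiv (s i a) (φ F)) = 0) → x = 0) ∨
      ∃ y : Fin (n + 2) → AlgebraicClosure K, (∀ k, (∀ a, k ≠ s i a) → y k = 0) ∧
        ∀ w : Fin (n + 2) → AlgebraicClosure K, (∀ k, (∀ a, k ≠ s i a) → w k = 0) →
          (∀ t : AlgebraicClosure K, aeval (y + t • w) (φ F) = aeval y (φ F)) → w = 0)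
    (hirr : Irreducible (aeval (fun k => if k ∈ U then X k else 0 :
      Fin (n + 2) → MvPolynomial (Fin (n + 2)) (AlgebraicClosure K)) (φ F)))
    (j : ℕ) (hj : j ≤ m) : ChowTriv F j :=
  HCN.final hD F hF φ hφ s U hs hU hmix hmixU hgood hirr j hj

end Pool.Agent.Results.MP_4be043_ag.NoMixedTerms
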