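import Mathlib
import Pool.Agent.HCT.Z1

/-!
Hartshorne's conjecture on Chow groups of hypersurfaces, in all degrees, is equivalent to a vanishing
for quasi-homogeneous polynomials which are sums of products of three variables and of a quadratic
form, and to the rigidity of the cycles along the elliptic curve `s ^ 3 + t ^ 3 + 1 = 0`.
-/

namespace Pool.Agent.Results.MP_4be043_ag.NormalForm

open MvPolynomial Pool.Agent.HCH Pool.Agent.HCF Pool.Agent.HCR Pool.Agent.HCT

/-- The Chow group of cycles of dimension `e` of the affine scheme `V(f)`, with rational coefficients,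
is spanned by the classes of the subvarieties satisfying `S`. -/
def Spanned (K : Type) {R : Type} [Field K] [CommRing R] [Algebra K R] (f : R) (e : ℕ)
    (S : PrimeSpectrum R → Prop) : Prop :=
  ∀ p : PrimeSpectrum R, f ∈ p.asIdeal → dm K p.asIdeal = e →
    ∃ N : ℕ, 0 < N ∧ (N : ℤ) • cls p ∈ ARat K f e ⊔
      AddSubgroup.closure {z | ∃ q : PrimeSpectrum R, f ∈ q.asIdeal ∧ dm K q.asIdeal = e ∧
        S q ∧ z = cls q}

/-- The base change of the affine complex hypersurface `V(f)` to the field `L` is surjective on the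
Chow groups of cycles of dimension `e` with rational coefficients. -/
def Rigid (L : Type) [Field L] [Algebra ℂ L] {n : ℕ} (f : MvPolynomial (Fin n) ℂ) (e : ℕ) :
    Prop :=
  Spanned L (HCH.ext ℂ L n f) e (fun Q => ∃ p : PrimeSpectrum (MvPolynomial (Fin n) ℂ),
    f ∈ p.asIdeal ∧ Q.asIdeal = p.asIdeal.map (HCH.ext ℂ L n))

/-- Hartshorne's conjecture: `A^j(X) = ℚ h^j` for every smooth complex hypersurface `X` of degree
`d ≥ 2` and dimension `n > 2 j`. -/
def HCSmooth : Prop :=
  ∀ d, 2 ≤ d → ∀ j n, 2 * j < n → ∀ F : MvPolynomial (Fin (n + 2)) ℂ, F.IsHomogeneous d →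
    Smooth F → ChowTriv F j

/-- The affine quasi-homogeneous form: `A^c({G = 0}) = 0` for `c ≥ 1` and every quasi-homogeneous `G`
in `N` variables whose critical locus has dimension at most `r`, `2 c + r + 3 ≤ N`. -/
def HCWeighted : Prop :=
  ∀ c, 1 ≤ c → ∀ N r, 2 * c + r + 3 ≤ N → ∀ G : MvPolynomial (Fin N) ℂ, QH G → CritLe G r →
    AT ℂ G (N - 1 - c)

/-- The normal form: for arbitrarily large `c`, `A^c({g = 0}) = 0` for every quasi-homogeneous
`g = ∑ a_k b_k c_k + q` in `2 c + 3` variables with only one critical point. -/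
def HCCubic : Prop :=
  ∀ c₀, ∃ c ≥ c₀, ∀ g : MvPolynomial (Fin (2 * c + 3)) ℂ, NF g → QH g → Smooth g →
    AT ℂ g (c + 2)

/-- Rigidity of the cycles of codimension `j` on all quasi-homogeneous hypersurfaces of dimension
`2 j + 1`, `j ≥ 1`, with only one critical point, along the elliptic curve `s ^ 3 + t ^ 3 + 1 = 0` with
function field `FF 3`. -/
def RigidAll : Prop :=
  ∀ j, 1 ≤ j → ∀ G : MvPolynomial (Fin (2 * j + 2)) ℂ, QH G → Smooth G →
    Rigid (FF 3) G (j + 1)

/-- Rigidity, for arbitrarily large `j`, of the cycles of codimension `j` on the hypersurfaces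
`x ^ 3 + g = 0`, `g` a normal form in `2 j + 1` variables. -/
def RigidCubic : Prop :=
  ∀ j₀, ∃ j ≥ j₀, ∀ g : MvPolynomial (Fin (2 * j + 1)) ℂ, NF g → QH g → Smooth g →
    Rigid (FF 3) (sus 3 g) (j + 1)

theorem spanned_iff {K R : Type} [Field K] [CommRing R] [Algebra K R] [Algebra.FiniteType K R]
    (f : R) (e : ℕ) (S : PrimeSpectrum R → Prop) : Spanned K f e S ↔ Gen K f e S := by
  classical
  have hcls : ∀ p : PrimeSpectrum R, cls p = ⇑(Finsupp.single p (1 : ℤ)) := by
    intro p
    funext q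
    rw [Finsupp.single_apply]
    unfold cls
    by_cases h : q = p
    · rw [if_pos h, if_pos h.symm]
    · rw [if_neg h, if_neg (Ne.symm h)]
  have hcl : ∀ z : PrimeSpectrum R → ℤ, z ∈ AddSubgroup.closure {z | ∃ q : PrimeSpectrum R,
      f ∈ q.asIdeal ∧ dm K q.asIdeal = e ∧ S q ∧ z = cls q} ↔ ∃ w ∈ Cy K f e S, ⇑w = z := by
    intro z
    constructor
    · intro hz
      induction hz using AddSubgroup.closure_induction with
      | mem z hz =>
        obtain ⟨q, h1, h2, h3, rfl⟩ := hz
        exact ⟨Finsupp.single q 1, AddSubgroup.subset_closure ⟨q, h1, h2, h3, rfl⟩,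
          (hcls q).symm⟩
      | zero => exact ⟨0, AddSubgroup.zero_mem _, rfl⟩
      | add x y _ _ hx hy =>
        obtain ⟨a, ha, rfl⟩ := hx
        obtain ⟨b, hb, rfl⟩ := hy
        exact ⟨a + b, AddSubgroup.add_mem _ ha hb, rfl⟩
      | neg x _ hx =>
        obtain ⟨a, ha, rfl⟩ := hx
        exact ⟨-a, AddSubgroup.neg_mem _ ha, rfl⟩
    · rintro ⟨w, hw, rfl⟩
      unfold Cy at hw
      induction hw using AddSubgroup.closure_induction with
      | mem z hz =>
        obtain ⟨q, h1, h2, h3, rfl⟩ := hz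
        exact AddSubgroup.subset_closure ⟨q, h1, h2, h3, (hcls q).symm⟩
      | zero => exact AddSubgroup.zero_mem _
      | add x y _ _ hx hy => exact AddSubgroup.add_mem _ hx hy
      | neg x _ hx => exact AddSubgroup.neg_mem _ hx
  refine forall_congr' fun p => forall_congr' fun _ => forall_congr' fun _ =>
    exists_congr fun N => and_congr_right fun _ => ?_
  rw [AddSubgroup.mem_sup, AddSubgroup.mem_sup]
  constructor
  · rintro ⟨y, hy, z, hz, hyz⟩
    obtain ⟨w, hw, rfl⟩ := (hcl z).mp hz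
    refine ⟨(N : ℤ) • Finsupp.single p (1 : ℤ) - w, ?_, w, hw, sub_add_cancel _ _⟩
    rw [Rt_iff]
    have h1 : ⇑((N : ℤ) • Finsupp.single p (1 : ℤ) - w) = y := by
      rw [Finsupp.coe_sub, t1_coe, ← hyz, add_sub_cancel_right]
    rw [h1]
    exact hy
  · rintro ⟨y, hy, w, hw, hyw⟩
    refine ⟨⇑y, (Rt_iff f e y).mp hy, ⇑w, (hcl _).mpr ⟨w, hw, rfl⟩, ?_⟩
    rw [← Finsupp.coe_add, hyw, t1_coe]

theorem rigid_iff {n : ℕ} (f : MvPolynomial (Fin n) ℂ) (e : ℕ) :
    Rigid (FF 3) f e ↔ Rig f e := by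
  unfold Rigid Rig
  have h : (fun Q : PrimeSpectrum (MvPolynomial (Fin n) (FF 3)) =>
      ∃ p : PrimeSpectrum (MvPolynomial (Fin n) ℂ), f ∈ p.asIdeal ∧
        Q.asIdeal = p.asIdeal.map (HCH.ext ℂ (FF 3) n)) =
      fun Q => ∃ p : PrimeSpectrum (MvPolynomial (Fin n) ℂ), f ∈ p.asIdeal ∧ Q = bc (FF 3) p := by
    funext Q
    apply propext
    refine exists_congr fun p => and_congr_right fun _ => ?_
    constructor
    · intro h
      exact PrimeSpectrum.ext h
    · intro h
      rw [h]
      rfl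
  rw [h]
  exact spanned_iff (K := FF 3) (HCH.ext ℂ (FF 3) n f) e _

theorem result : List.TFAE [HCSmooth, HCWeighted, HCCubic, RigidAll, RigidCubic] := by
  have h4 : RigidAll ↔ ∀ j ≥ 1, ∀ G : MvPolynomial (Fin (2 * j + 2)) ℂ, QH G → Iso G →
      Rig G (j + 1) :=
    forall_congr' fun j => forall_congr' fun _ => forall_congr' fun G => forall_congr' fun _ =>
      forall_congr' fun _ => rigid_iff G (j + 1)
  have h5 : RigidCubic ↔ ∀ j₀, ∃ j ≥ j₀, ∀ g : MvPolynomial (Fin (2 * j + 1)) ℂ, NF g → QH g →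
      Iso g → Rig (sus 3 g) (j + 1) :=
    forall_congr' fun j₀ => exists_congr fun j => and_congr_right fun _ =>
      forall_congr' fun g => forall_congr' fun _ => forall_congr' fun _ => forall_congr' fun _ =>
        rigid_iff (sus 3 g) (j + 1)
  rw [h4, h5]
  exact final5

end Pool.Agent.Results.MP_4be043_ag.NormalForm
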