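import Mathlib
import Pool.Agent.HCR.Z1

/-!
Hartshorne's conjecture on Chow groups of hypersurfaces in a fixed degree `D` is equivalent to the
rigidity of the cycles of middle dimension along one curve, the Fermat curve of degree `D`.
-/

namespace Pool.Agent.Results.MP_4be043_ag.Rigidity

open MvPolynomial Pool.Agent.HCH Pool.Agent.HCF Pool.Agent.HCR

/-- The Chow group of cycles of dimension `e - 1` of `V(F)`, with rational coefficients, is spanned by
the classes of the subvarieties satisfying `S`. -/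
def SpanBy {K : Type} [Field K] {m : ℕ} (F : MvPolynomial (Fin m) K) (e : ℕ)
    (S : Sub F e → Prop) : Prop :=
  ∀ x : Chow F e, x ∈ Submodule.span ℚ {y | ∃ P : Sub F e, S P ∧
    y = (RatEq F e).mkQ (Finsupp.single P 1)}

/-- The base change from `V(F)` to `V(F)_L` is surjective on the Chow groups of cycles of dimension
`e - 1`: the Chow group of `V(F)_L` is spanned by the base changes of the subvarieties of `V(F)`. -/
def Onto (L : Type) [Field L] [Algebra ℂ L] {m : ℕ} (F : MvPolynomial (Fin m) ℂ) (e : ℕ) : Prop :=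
  SpanBy (ext ℂ L m F) e (fun Q => ∃ P : Sub F e, Q.1.asIdeal = P.1.asIdeal.map (ext ℂ L m))

/-- The Chow group of cycles of dimension `e - 1` of `V(F)` is spanned by the subvarieties lying in
hyperplanes `s x_a = t x_b`. -/
def Pencil {m : ℕ} (F : MvPolynomial (Fin m) ℂ) (a b : Fin m) (e : ℕ) : Prop :=
  SpanBy F e (fun P => ∃ s t : ℂ, (s ≠ 0 ∨ t ≠ 0) ∧ C s * X a - C t * X b ∈ P.1.asIdeal)

/-- Hartshorne's conjecture in degree `D`: `A^j(X) = ℚ h^j` for every smooth complex hypersurface `X`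
of degree `D` and dimension `n > 2 j`. -/
def HCSmooth (D : ℕ) : Prop :=
  ∀ j n, 2 * j < n → ∀ F : MvPolynomial (Fin (n + 2)) ℂ, F.IsHomogeneous D → Smooth F →
    ChowTriv F j

/-- The same for singular hypersurfaces: `2 j + dim Sing(X) + 2 ≤ dim X`. -/
def HCSing (D : ℕ) : Prop :=
  ∀ j n r, 2 * j + r + 1 ≤ n → ∀ F : MvPolynomial (Fin (n + 2)) ℂ, F.IsHomogeneous D →
    SgLe F r → ChowTriv F j

/-- `A^j(X) → A^j(X_L)` is surjective for every smooth hypersurface `X = {x ^ D + F = 0}` of dimension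
`2 j`, `j ≥ 1`, where `L` is the function field of the Fermat curve of degree `D`. -/
def RigidMiddle (D : ℕ) : Prop :=
  ∀ j ≥ 1, ∀ F : MvPolynomial (Fin (2 * j + 1)) ℂ, F.IsHomogeneous D → Smooth F →
    Onto (FF D) (sus D F) (j + 1)

/-- `A^j(X) → A^j(X_L)` is surjective for every smooth hypersurface `X` of degree `D` and dimension
`n ≥ 2 j`, `n ≥ 1`. -/
def RigidAll (D : ℕ) : Prop :=
  ∀ j n, 1 ≤ n → 2 * j ≤ n → ∀ F : MvPolynomial (Fin (n + 2)) ℂ, F.IsHomogeneous D →
    Smooth F → Onto (FF D) F (n + 1 - j)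

/-- For every smooth form `F` of degree `D` in `2 j + 1` variables, `j ≥ 1`, the group
`A^j({F + y ^ D + z ^ D = 0})` is spanned by the subvarieties lying in hyperplanes `a y = b z`. -/
def PencilMiddle (D : ℕ) : Prop :=
  ∀ j ≥ 1, ∀ F : MvPolynomial (Fin (2 * j + 1)) ℂ, F.IsHomogeneous D → Smooth F →
    Pencil (suspA D F) 0 1 (j + 2)

theorem onto_iff (L : Type) [Field L] [Algebra ℂ L] {m : ℕ} (F : MvPolynomial (Fin m) ℂ)
    (e : ℕ) : Onto L F e ↔ OntoL L F e := by
  have h : {y : Chow (ext ℂ L m F) e | ∃ Q : Sub (ext ℂ L m F) e,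
      (∃ P : Sub F e, Q.1.asIdeal = P.1.asIdeal.map (ext ℂ L m)) ∧
        y = (RatEq (ext ℂ L m F) e).mkQ (Finsupp.single Q 1)} =
      {y | ∃ (P : Sub F e) (Q : Sub (ext ℂ L m F) e),
        Q.1.asIdeal = P.1.asIdeal.map (ext ℂ L m) ∧
        y = (RatEq (ext ℂ L m F) e).mkQ (Finsupp.single Q 1)} := by
    apply Set.ext
    intro y
    constructor
    · rintro ⟨Q, ⟨P, h1⟩, h2⟩
      exact ⟨P, Q, h1, h2⟩
    · rintro ⟨P, Q, h1, h2⟩
      exact ⟨Q, ⟨P, h1⟩, h2⟩
  unfold Onto SpanBy OntoL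
  rw [h]

theorem result (D : ℕ) (hD : 3 ≤ D) :
    List.TFAE [HCSmooth D, HCSing D, RigidMiddle D, RigidAll D, PencilMiddle D] := by
  have h3 : RigidMiddle D ↔ ∀ j ≥ 1, ∀ F : MvPolynomial (Fin (2 * j + 1)) ℂ,
      F.IsHomogeneous D → Smooth F → OntoL (FF D) (sus D F) (j + 1) :=
    forall_congr' fun j => forall_congr' fun _ => forall_congr' fun F => forall_congr' fun _ =>
      forall_congr' fun _ => onto_iff (FF D) (sus D F) (j + 1)
  have h4 : RigidAll D ↔ ∀ j n, 1 ≤ n → 2 * j ≤ n → ∀ F : MvPolynomial (Fin (n + 2)) ℂ,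
      F.IsHomogeneous D → Smooth F → OntoL (FF D) F (n + 1 - j) :=
    forall_congr' fun j => forall_congr' fun n => forall_congr' fun _ => forall_congr' fun _ =>
      forall_congr' fun F => forall_congr' fun _ => forall_congr' fun _ =>
        onto_iff (FF D) F (n + 1 - j)
  rw [h3, h4]
  exact final4 D hD

end Pool.Agent.Results.MP_4be043_ag.Rigidity
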